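import Mathlib
import Pool.Agent.Q288.Itg.Ev

/-!
# MP_2bd3fb_al: locally integrable locally finite groups need not be integrable

`G` is the group of all sequences in `A₅` that are eventually constant with value in the subgroup
`S₃ ≅ T5 ≤ A₅`. `G` is locally finite and every finite subset of `G` lies in a finite subgroup
`K ≅ A₅ⁿ × {(y,z) ∈ S₃² : sgn y = sgn z}`, the derived subgroup of the finite group
`A₅ⁿ × (S₃ ≀ C₂)`. But `G' / G''` is cyclic of order `3` and is inverted by an element of `G`, so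
`G` is not the derived subgroup of any group.
-/

open Subgroup Equiv.Perm
open scoped commutatorElement

namespace Pool.Agent.Results.MP_2bd3fb_al.EventuallyConstant

open Q288.Itg

/-- the alternating group of degree five -/
abbrev A5 : Type := alternatingGroup (Fin 5)

/-- the subgroup of all even permutations of `{0,1,2,3,4}` that map `{3,4}` onto itself
(isomorphic to the symmetric group `S₃`) -/
def T5 : Subgroup A5 where
  carrier := {g | ∀ i : Fin 5, ((g : Equiv.Perm (Fin 5)) i = 3 ∨ (g : Equiv.Perm (Fin 5)) i = 4) ↔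
    (i = 3 ∨ i = 4)}
  one_mem' := by intro i; simp
  mul_mem' := by
    intro g h hg hh i
    have := hg ((h : Equiv.Perm (Fin 5)) i)
    simpa [this] using (this.trans (hh i))
  inv_mem' := by
    intro g hg i
    have := hg ((g : Equiv.Perm (Fin 5))⁻¹ i)
    simpa using this.symm

/-- A group is locally finite if its finitely generated subgroups are finite. -/
def LocallyFinite (G : Type) [Group G] : Prop := ∀ K : Subgroup G, K.FG → Finite K

/-- `H` is an integral of `G`: the derived subgroup of `H` is isomorphic to `G`. -/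
def IsIntegral.{u} (H : Type u) [Group H] (G : Type) [Group G] : Prop :=
  Nonempty (commutator H ≃* G)

/-- the group of all sequences in `A₅` that are eventually constant with value in `T5` -/
abbrev G : Type := ev T5

theorem T5_cases {g : A5} (hg : g ∈ T5) :
    ((g : Equiv.Perm (Fin 5)) 3 = 3 ∧ (g : Equiv.Perm (Fin 5)) 4 = 4) ∨
    ((g : Equiv.Perm (Fin 5)) 3 = 4 ∧ (g : Equiv.Perm (Fin 5)) 4 = 3) := by
  have h3 := (hg 3).2 (Or.inl rfl)
  have h4 := (hg 4).2 (Or.inr rfl)
  have hne : (g : Equiv.Perm (Fin 5)) 3 ≠ (g : Equiv.Perm (Fin 5)) 4 :=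
    (g : Equiv.Perm (Fin 5)).injective.ne (by decide)
  rcases h3 with h3 | h3 <;> rcases h4 with h4 | h4
  · exact absurd (h3.trans h4.symm) hne
  · exact Or.inl ⟨h3, h4⟩
  · exact Or.inr ⟨h3, h4⟩
  · exact absurd (h3.trans h4.symm) hne

theorem perm_cases : ∀ g : Equiv.Perm (Fin 5), Equiv.Perm.sign g = 1 → g 3 = 3 → g 4 = 4 →
    g = 1 ∨ g = c[0,1,2] ∨ g = c[0,1,2] * c[0,1,2] := by decide +kernel

/-- the 3-cycle -/
def cT : T5 := ⟨⟨c[0,1,2], by rw [Equiv.Perm.mem_alternatingGroup]; decide⟩, by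
  change ∀ i : Fin 5, _; decide⟩

/-- the double transposition `(0 1)(3 4)` -/
def tT : T5 := ⟨⟨c[0,1] * c[3,4], by rw [Equiv.Perm.mem_alternatingGroup]; decide⟩, by
  change ∀ i : Fin 5, _; decide⟩

theorem mem_zpowers_of_fix (g : T5) (h : (((g : A5)) : Equiv.Perm (Fin 5)) 3 = 3) :
    g ∈ zpowers cT := by
  have h4 : (((g : A5)) : Equiv.Perm (Fin 5)) 4 = 4 := by
    rcases T5_cases g.2 with h1 | h1
    · exact h1.2
    · rw [h] at h1; exact absurd h1.1 (by decide)
  rcases perm_cases _ (Equiv.Perm.mem_alternatingGroup.1 (g : A5).2) h h4 with h1 | h1 | h1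
  · have : g = 1 := by ext1; ext1; exact h1
    rw [this]; exact one_mem _
  · have : g = cT := by ext1; ext1; exact h1
    rw [this]; exact mem_zpowers _
  · have : g = cT * cT := by ext1; ext1; exact h1
    rw [this]; exact mul_mem (mem_zpowers _) (mem_zpowers _)

theorem hc : ⁅tT, cT⁆ = cT := by
  ext1; ext1
  change (c[0,1] * c[3,4] : Equiv.Perm (Fin 5)) * c[0,1,2] * (c[0,1] * c[3,4])⁻¹ * (c[0,1,2])⁻¹
    = c[0,1,2]
  decide +kernel

theorem hc1 : cT ≠ 1 := by
  intro h
  have : (c[0,1,2] : Equiv.Perm (Fin 5)) = 1 := congrArg (fun x : T5 => ((x : A5) : Equiv.Perm (Fin 5))) h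
  exact absurd this (by decide +kernel)

theorem hT : commutator T5 ≤ zpowers cT := by
  rw [_root_.commutator_def, commutator_le]
  intro a _ b _
  refine mem_zpowers_of_fix _ ?_
  change ((a : A5) : Equiv.Perm (Fin 5)) (((b : A5) : Equiv.Perm (Fin 5))
    ((((a⁻¹ : T5) : A5) : Equiv.Perm (Fin 5)) ((((b⁻¹ : T5) : A5) : Equiv.Perm (Fin 5)) 3))) = 3
  have ha := T5_cases a.2
  have hb := T5_cases b.2
  have ha' : (((a⁻¹ : T5) : A5) : Equiv.Perm (Fin 5)) = (((a : T5) : A5) : Equiv.Perm (Fin 5))⁻¹ := rfl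
  have hb' : (((b⁻¹ : T5) : A5) : Equiv.Perm (Fin 5)) = (((b : T5) : A5) : Equiv.Perm (Fin 5))⁻¹ := rfl
  rw [ha', hb']
  generalize ((a : A5) : Equiv.Perm (Fin 5)) = x at ha ha'
  generalize ((b : A5) : Equiv.Perm (Fin 5)) = y at hb hb'
  rcases ha with ⟨h1, h2⟩ | ⟨h1, h2⟩ <;> rcases hb with ⟨h3, h4⟩ | ⟨h3, h4⟩ <;>
  · have i1 := Equiv.Perm.inv_eq_iff_eq.2 h1.symm
    have i2 := Equiv.Perm.inv_eq_iff_eq.2 h2.symm
    have i3 := Equiv.Perm.inv_eq_iff_eq.2 h3.symm
    have i4 := Equiv.Perm.inv_eq_iff_eq.2 h4.symm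
    simp [h1, h2, h3, h4, i1, i2, i3, i4]

theorem sq_mem (s : T5) : s * s ∈ commutator T5 := by
  have h1 : s * s ∈ zpowers cT := by
    refine mem_zpowers_of_fix _ ?_
    change ((s : A5) : Equiv.Perm (Fin 5)) (((s : A5) : Equiv.Perm (Fin 5)) 3) = 3
    rcases T5_cases s.2 with ⟨h1, h2⟩ | ⟨h1, h2⟩
    · rw [h1, h1]
    · rw [h1, h2]
  have h2 : cT ∈ commutator T5 := by
    rw [← hc]; exact commutator_mem_commutator trivial trivial
  exact (zpowers_le.2 h2) h1

/-- **Q1 and Q2 have negative answers.** -/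
theorem result.{u} :
    LocallyFinite G ∧
    (∀ S : Set G, S.Finite → ∃ K : Subgroup G, S ⊆ (K : Set G) ∧ Finite K ∧
      ∃ (H : Type) (_ : Group H), Finite H ∧ IsIntegral H K) ∧
    ∀ (H : Type u) [Group H], ¬ IsIntegral H G := by
  have hA : commutator A5 = ⊤ := commutator_alternatingGroup_eq_top (by simp)
  refine ⟨fun K hK => locallyFinite K hK, ?_, ?_⟩
  · intro S hS
    obtain ⟨n, hn⟩ := exists_st_finset hS.toFinset
    have hle : st T5 n ≤ Kn T5 n := st_le_Kn sq_mem n
    refine ⟨Kn T5 n, fun f hf => hle (hn f (hS.mem_toFinset.2 hf)), ?_, Hn T5 n, inferInstance,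
      ?_, ⟨HnEquiv hA n⟩⟩
    · exact Finite.of_injective (fun x : Kn T5 n => (⟨(x : ev T5), x.2.1⟩ : st T5 (n + 1)))
        (fun a b h => by ext1; exact congrArg (fun x : st T5 (n + 1) => (x : ev T5)) h)
    · have := Wr_finite (T := T5)
      infer_instance
  · intro H _ ⟨e⟩
    exact (no_integral hA cT tT hc hc1 hT H).false e

end Pool.Agent.Results.MP_2bd3fb_al.EventuallyConstant
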